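import Pool.Agent.V11214.SepMain

/-!
# MP_1441be_gt, Q1: embeddings between spaces of separately continuous functions on cubes

For all `n < m` the space `SC_p([0,1]^m)` does not embed into `SC_p([0,1]^n)`.

Sketch.  Let `Φ` be an embedding.  For the countably many points `q` of `[0,1]^n` with coordinates
in a countable dense set, `f ↦ Φ(f)(q)` is continuous on a dense subspace of the separable space
`ℝ^([0,1]^m)`, so it is continuous in the topology of finitely many coordinates out of a countable
set `A` of points of `[0,1]^m`.  Choose a point `x` of `[0,1]^m` sharing no coordinate with a point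
of `A`.  For every set `B` of class `Σ^0_m` in the Baire space there are separately continuous
`θ(z)`, vanishing on a prescribed finite set `L ∌ x`, with `θ(z)(x) = 1_B(z)` and `θ(z)(α)`
continuous in `z` for every `α ∈ A`.  All functions `z ↦ Φ(θ(z))(y)` are of Baire class `n`, and
continuity of `Φ` and of its inverse at `0` shows that the complement of `B` is of class
`Σ^0_{n+1}`; this contradicts the strictness of the Borel hierarchy.
-/

set_option autoImplicit false

namespace Pool.Agent.Results.MP_1441be_gt.NoEmbedding

/-- `f : [0,1]^k → ℝ` is separately continuous: for every coordinate `i` and every point `x`, the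
function `t ↦ f (x with the i-th coordinate replaced by t)` is continuous on `[0,1]`. -/
def SepContinuous {k : ℕ} (f : (Fin k → unitInterval) → ℝ) : Prop :=
  ∀ (i : Fin k) (x : Fin k → unitInterval),
    Continuous (fun t : unitInterval => f (Function.update x i t))

/-- `SC_p([0,1]^k)`: the separately continuous functions, with the subspace topology of the product
`ℝ^([0,1]^k)` (pointwise convergence). -/
abbrev SC (k : ℕ) : Type := {f : (Fin k → unitInterval) → ℝ // SepContinuous f}

/-- **Full answer to Q1 of MP_1441be_gt** (the assertion is true; the restriction `2 ≤ n` is not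
needed): for `n < m` the space `SC_p([0,1]^m)` is not homeomorphic to a subspace of
`SC_p([0,1]^n)`. -/
theorem result (n m : ℕ) (hnm : n < m) : ¬ ∃ Φ : SC m → SC n, Topology.IsEmbedding Φ := by
  rintro ⟨Φ, hΦ⟩
  exact Pool.Agent.V11214.Sep.no_embedding hnm Φ hΦ

end Pool.Agent.Results.MP_1441be_gt.NoEmbedding
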